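import Pool.Agent.H30.NSS.Conv

/-!
# A Demushkin pro-2 group which is not self-similar (negative answer to Q1 of MP_33d618_al)
-/

open NSS

namespace Pool.Agent.Results.MP_33d618_al.NotSelfSimilar

/-- There is a Demushkin pro-2 group `G` with `d(G) = 3` which is not self-similar of index 2. -/
theorem result : ∃ (G : Type) (_ : Group G) (_ : TopologicalSpace G),
    IsDemushkin G 2 ∧ DimOne G 2 3 ∧ ¬ IsSelfSimilar G 2 :=
  NSS.main

end Pool.Agent.Results.MP_33d618_al.NotSelfSimilar
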